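import Mathlib

set_option autoImplicit false

/-!
# Functions of one variable with large second derivative
-/

namespace Pool.Agent.Q80.LW

open MeasureTheory Set
open scoped ENNReal

/-- on an interval where `|f'| ≥ m` a monotone function spends at most the time `|E| / m` in `E` -/
theorem time_mono {f f' : ℝ → ℝ} {a b m : ℝ} (hm : 0 < m)
    (hf : ∀ x ∈ Icc a b, HasDerivAt f (f' x) x) (hinj : InjOn f (Icc a b))
    (h1 : ∀ x ∈ Icc a b, m ≤ |f' x|) {E : Set ℝ} (hE : MeasurableSet E) :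
    ENNReal.ofReal m * volume {x | x ∈ Icc a b ∧ f x ∈ E} ≤ volume E := by
  have hc : ContinuousOn f (Icc a b) := fun x hx => (hf x hx).continuousAt.continuousWithinAt
  have hS : MeasurableSet {x | x ∈ Icc a b ∧ f x ∈ E} := by
    have := hc.measurable_piecewise (g := fun _ => (0 : ℝ)) (continuousOn_const (s := (Icc a b)ᶜ)) measurableSet_Icc
    have h2 := measurableSet_Icc.inter (this hE) (s₁ := Icc a b)
    have e : {x | x ∈ Icc a b ∧ f x ∈ E} = Icc a b ∩ ((Icc a b).piecewise f fun _ => 0) ⁻¹' E := by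
      ext x
      constructor
      · rintro ⟨h3, h4⟩
        refine ⟨h3, ?_⟩
        show (Icc a b).piecewise f (fun _ => 0) x ∈ E
        rw [piecewise_eq_of_mem _ _ _ h3]
        exact h4
      · rintro ⟨h3, h4⟩
        refine ⟨h3, ?_⟩
        have h5 : (Icc a b).piecewise f (fun _ => 0) x ∈ E := h4
        rw [piecewise_eq_of_mem _ _ _ h3] at h5
        exact h5
    rw [e]
    exact h2
  set S := {x | x ∈ Icc a b ∧ f x ∈ E} with hSd
  have hSI : S ⊆ Icc a b := fun x hx => hx.1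
  have key := lintegral_image_eq_lintegral_abs_deriv_mul hS (fun x hx => (hf x (hSI hx)).hasDerivWithinAt)
    (hinj.mono hSI) (fun _ => 1)
  simp only [mul_one, lintegral_const, one_mul, Measure.restrict_apply MeasurableSet.univ, univ_inter] at key
  calc ENNReal.ofReal m * volume S = ∫⁻ x in S, ENNReal.ofReal m := by
        rw [lintegral_const, Measure.restrict_apply MeasurableSet.univ, univ_inter]
    _ ≤ ∫⁻ x in S, ENNReal.ofReal |f' x| := by
        refine setLIntegral_mono' hS fun x hx => ENNReal.ofReal_le_ofReal (h1 x (hSI hx))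
    _ = volume (f '' S) := key.symm
    _ ≤ volume E := measure_mono (by rintro _ ⟨x, hx, rfl⟩; exact hx.2)

theorem time_mono' {f f' : ℝ → ℝ} {a b m δ : ℝ} (hm : 0 < m)
    (hf : ∀ x ∈ Icc a b, HasDerivAt f (f' x) x) (hinj : InjOn f (Icc a b))
    (h1 : ∀ x ∈ Icc a b, m ≤ |f' x|) {E : Set ℝ} (hE : MeasurableSet E)
    (hδ : volume E ≤ ENNReal.ofReal δ) :
    volume {x | x ∈ Icc a b ∧ f x ∈ E} ≤ ENNReal.ofReal (δ / m) := by
  have h := (time_mono hm hf hinj h1 hE).trans hδ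
  rw [ENNReal.ofReal_div_of_pos hm, ENNReal.le_div_iff_mul_le (Or.inl (by simpa using hm)) (Or.inl ENNReal.ofReal_ne_top),
    mul_comm]
  exact h

/-- a function with `f'' ≥ κ` on an interval spends at most the time `4 √(|E| / κ)` in `E` -/
theorem time_convex {f f' f'' : ℝ → ℝ} {a b κ δ : ℝ} (hκ : 0 < κ) (hδ0 : 0 < δ)
    (hf : ∀ x ∈ Icc a b, HasDerivAt f (f' x) x) (hf' : ∀ x ∈ Icc a b, HasDerivAt f' (f'' x) x)
    (h2 : ∀ x ∈ Icc a b, κ ≤ f'' x) {E : Set ℝ} (hE : MeasurableSet E)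
    (hδ : volume E ≤ ENNReal.ofReal δ) :
    volume {x | x ∈ Icc a b ∧ f x ∈ E} ≤ ENNReal.ofReal (4 * √(δ / κ)) := by
  rcases lt_or_ge b a with hab | hab
  · have : {x | x ∈ Icc a b ∧ f x ∈ E} = ∅ := by
      rw [Icc_eq_empty (not_le.2 hab)]
      simp
    rw [this]
    simp
  have hc' : ContinuousOn f' (Icc a b) := fun x hx => (hf' x hx).continuousAt.continuousWithinAt
  have hgrow : ∀ x ∈ Icc a b, ∀ y ∈ Icc a b, x ≤ y → κ * (y - x) ≤ f' y - f' x := by
    intro x hx y hy hxy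
    rcases eq_or_lt_of_le hxy with rfl | hlt
    · simp
    obtain ⟨w, hw, hw'⟩ := exists_hasDerivAt_eq_slope f' f'' hlt
      (hc'.mono (Icc_subset_Icc hx.1 hy.2)) (fun w hw => hf' w ⟨hx.1.trans hw.1.le, hw.2.le.trans hy.2⟩)
    have := h2 w ⟨hx.1.trans hw.1.le, hw.2.le.trans hy.2⟩
    rw [hw', le_div_iff₀ (by linarith)] at this
    exact this
  obtain ⟨t, ht1, ht2⟩ : ∃ t, (∀ x ∈ Icc a b, t < x → κ * (x - t) ≤ f' x) ∧
      (∀ x ∈ Icc a b, x < t → f' x ≤ -(κ * (t - x))) := by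
    have ha : a ∈ Icc a b := ⟨le_rfl, hab⟩
    have hb : b ∈ Icc a b := ⟨hab, le_rfl⟩
    by_cases h3 : 0 ≤ f' a
    · refine ⟨a, fun x hx _ => ?_, fun x hx h => absurd h (not_lt.2 hx.1)⟩
      have := hgrow a ha x hx hx.1
      linarith
    by_cases h4 : f' b ≤ 0
    · refine ⟨b, fun x hx h => absurd h (not_lt.2 hx.2), fun x hx _ => ?_⟩
      have := hgrow x hx b hb hx.2
      linarith
    push Not at h3 h4
    obtain ⟨t, htI, ht0⟩ := intermediate_value_Icc hab hc' (show (0 : ℝ) ∈ Icc (f' a) (f' b) from ⟨h3.le, h4.le⟩)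
    refine ⟨t, fun x hx h => ?_, fun x hx h => ?_⟩
    · have := hgrow t htI x hx h.le
      linarith
    · have := hgrow x hx t htI h.le
      linarith
  set s := √(δ / κ) with hs
  have hs0 : 0 < s := Real.sqrt_pos.2 (by positivity)
  have hss : s * s = δ / κ := Real.mul_self_sqrt (by positivity)
  have hm : 0 < κ * s := by positivity
  have hq : δ / (κ * s) = s := by
    rw [div_eq_iff hm.ne']
    have : s * (κ * s) = κ * (s * s) := by ring
    rw [this, hss]
    field_simp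
  -- right part
  have hR : volume {x | x ∈ Icc (max a (t + s)) b ∧ f x ∈ E} ≤ ENNReal.ofReal s := by
    have hsub : Icc (max a (t + s)) b ⊆ Icc a b := Icc_subset_Icc (le_max_left _ _) le_rfl
    have hpos : ∀ x ∈ Icc (max a (t + s)) b, κ * s ≤ f' x := by
      intro x hx
      have h5 : t + s ≤ x := (le_max_right _ _).trans hx.1
      have := ht1 x (hsub hx) (by linarith)
      have h6 : κ * s ≤ κ * (x - t) := mul_le_mul_of_nonneg_left (by linarith) hκ.le
      linarith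
    have hmono : StrictMonoOn f (Icc (max a (t + s)) b) := by
      apply strictMonoOn_of_deriv_pos (convex_Icc _ _)
      · exact fun x hx => (hf x (hsub hx)).continuousAt.continuousWithinAt
      · intro x hx
        rw [(hf x (hsub (interior_subset hx))).deriv]
        exact hm.trans_le (hpos x (interior_subset hx))
    have := time_mono' hm (fun x hx => hf x (hsub hx)) hmono.injOn
      (fun x hx => (hpos x hx).trans (le_abs_self _)) hE hδ
    rwa [hq] at this
  have hL : volume {x | x ∈ Icc a (min b (t - s)) ∧ f x ∈ E} ≤ ENNReal.ofReal s := by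
    have hsub : Icc a (min b (t - s)) ⊆ Icc a b := Icc_subset_Icc le_rfl (min_le_left _ _)
    have hpos : ∀ x ∈ Icc a (min b (t - s)), f' x ≤ -(κ * s) := by
      intro x hx
      have h5 : x ≤ t - s := hx.2.trans (min_le_right _ _)
      have := ht2 x (hsub hx) (by linarith)
      have h6 : κ * s ≤ κ * (t - x) := mul_le_mul_of_nonneg_left (by linarith) hκ.le
      linarith
    have hmono : StrictAntiOn f (Icc a (min b (t - s))) := by
      apply strictAntiOn_of_deriv_neg (convex_Icc _ _)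
      · exact fun x hx => (hf x (hsub hx)).continuousAt.continuousWithinAt
      · intro x hx
        rw [(hf x (hsub (interior_subset hx))).deriv]
        linarith [hpos x (interior_subset hx)]
    have := time_mono' hm (fun x hx => hf x (hsub hx)) hmono.injOn
      (fun x hx => by
        have h7 := hpos x hx
        rw [abs_of_neg (by linarith)]
        linarith) hE hδ
    rwa [hq] at this
  have hsubset : {x | x ∈ Icc a b ∧ f x ∈ E} ⊆ Icc (t - s) (t + s) ∪
      ({x | x ∈ Icc (max a (t + s)) b ∧ f x ∈ E} ∪ {x | x ∈ Icc a (min b (t - s)) ∧ f x ∈ E}) := by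
    rintro x ⟨hx, hxE⟩
    by_cases h5 : t + s ≤ x
    · exact Or.inr (Or.inl ⟨⟨max_le hx.1 h5, hx.2⟩, hxE⟩)
    by_cases h6 : x ≤ t - s
    · exact Or.inr (Or.inr ⟨⟨hx.1, le_min hx.2 h6⟩, hxE⟩)
    · push Not at h5 h6
      exact Or.inl ⟨h6.le, h5.le⟩
  calc volume {x | x ∈ Icc a b ∧ f x ∈ E} ≤ volume (Icc (t - s) (t + s) ∪
      ({x | x ∈ Icc (max a (t + s)) b ∧ f x ∈ E} ∪ {x | x ∈ Icc a (min b (t - s)) ∧ f x ∈ E})) :=
        measure_mono hsubset
    _ ≤ volume (Icc (t - s) (t + s)) + (volume {x | x ∈ Icc (max a (t + s)) b ∧ f x ∈ E} +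
      volume {x | x ∈ Icc a (min b (t - s)) ∧ f x ∈ E}) :=
        (measure_union_le _ _).trans (add_le_add le_rfl (measure_union_le _ _))
    _ ≤ ENNReal.ofReal (2 * s) + (ENNReal.ofReal s + ENNReal.ofReal s) := by
        refine add_le_add ?_ (add_le_add hR hL)
        rw [Real.volume_Icc]
        apply ENNReal.ofReal_le_ofReal
        linarith
    _ = ENNReal.ofReal (4 * s) := by
        rw [← ENNReal.ofReal_add hs0.le hs0.le, ← ENNReal.ofReal_add (by positivity) (by positivity)]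
        congr 1
        ring

/-- the same for `f'' ≤ - κ` -/
theorem time_concave {f f' f'' : ℝ → ℝ} {a b κ δ : ℝ} (hκ : 0 < κ) (hδ0 : 0 < δ)
    (hf : ∀ x ∈ Icc a b, HasDerivAt f (f' x) x) (hf' : ∀ x ∈ Icc a b, HasDerivAt f' (f'' x) x)
    (h2 : ∀ x ∈ Icc a b, f'' x ≤ -κ) {E : Set ℝ} (hE : MeasurableSet E)
    (hδ : volume E ≤ ENNReal.ofReal δ) :
    volume {x | x ∈ Icc a b ∧ f x ∈ E} ≤ ENNReal.ofReal (4 * √(δ / κ)) := by
  have hE' : MeasurableSet (-E) := hE.neg
  have hv : volume (-E) ≤ ENNReal.ofReal δ := by rwa [Measure.measure_neg]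
  have := time_convex (f := fun x => - f x) (f' := fun x => - f' x) (f'' := fun x => - f'' x) hκ hδ0
    (fun x hx => (hf x hx).neg) (fun x hx => (hf' x hx).neg) (fun x hx => by linarith [h2 x hx]) hE' hv
  have e : {x | x ∈ Icc a b ∧ -f x ∈ -E} = {x | x ∈ Icc a b ∧ f x ∈ E} := by
    ext x
    show (x ∈ Icc a b ∧ -f x ∈ -E) ↔ (x ∈ Icc a b ∧ f x ∈ E)
    rw [Set.neg_mem_neg]
  rwa [e] at this

/-- the time in `E` while `|f''| ≥ κ`, in the unit interval, when the third derivative is at most `D` -/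
theorem time_third {f f' f'' f3 : ℝ → ℝ} {κ δ D : ℝ} (hκ : 0 < κ) (hδ0 : 0 < δ) (hD : 0 ≤ D)
    (hf : ∀ x ∈ Icc (0 : ℝ) 1, HasDerivAt f (f' x) x) (hf' : ∀ x ∈ Icc (0 : ℝ) 1, HasDerivAt f' (f'' x) x)
    (hf'' : ∀ x ∈ Icc (0 : ℝ) 1, HasDerivAt f'' (f3 x) x) (h3 : ∀ x ∈ Icc (0 : ℝ) 1, |f3 x| ≤ D)
    {E : Set ℝ} (hE : MeasurableSet E) (hδ : volume E ≤ ENNReal.ofReal δ) :
    volume {x | x ∈ Icc (0 : ℝ) 1 ∧ f x ∈ E ∧ κ ≤ |f'' x|} ≤
      ENNReal.ofReal ((2 * D / κ + 1) * (4 * √(2 * δ / κ))) := by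
  set N : ℕ := ⌊2 * D / κ⌋₊ + 1 with hN
  have hN0 : (0 : ℝ) < N := by rw [hN]; positivity
  have hN1 : (N : ℝ) ≤ 2 * D / κ + 1 := by
    rw [hN]
    push_cast
    linarith [Nat.floor_le (show 0 ≤ 2 * D / κ by positivity)]
  have hN2 : 2 * D / κ < N := by
    rw [hN]
    push_cast
    exact Nat.lt_floor_add_one _
  have hDN : D / N < κ / 2 := by
    rw [div_lt_iff₀ hN0]
    rw [div_lt_iff₀ hκ] at hN2
    linarith
  -- the pieces
  have hcover : {x | x ∈ Icc (0 : ℝ) 1 ∧ f x ∈ E ∧ κ ≤ |f'' x|} ⊆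
      ⋃ i ∈ Finset.range N, {x | x ∈ Icc ((i : ℝ) / N) ((i + 1 : ℝ) / N) ∧ f x ∈ E ∧ κ ≤ |f'' x|} := by
    rintro x ⟨hx, hx2⟩
    rw [mem_iUnion₂]
    rcases eq_or_lt_of_le hx.2 with h | h
    · refine ⟨N - 1, ?_, ?_, hx2⟩
      · rw [Finset.mem_range]; omega
      · have h5 : ((N - 1 : ℕ) : ℝ) + 1 = N := by
          rw [hN]; push_cast; simp
        rw [h5, div_self hN0.ne', h]
        refine ⟨?_, le_rfl⟩
        rw [div_le_one hN0]
        linarith
    · have hxN : 0 ≤ x * N := mul_nonneg hx.1 hN0.le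
      refine ⟨⌊x * N⌋₊, ?_, ⟨?_, ?_⟩, hx2⟩
      · rw [Finset.mem_range, Nat.floor_lt hxN]
        nlinarith
      · rw [div_le_iff₀ hN0]
        exact Nat.floor_le hxN
      · rw [le_div_iff₀ hN0]
        exact (Nat.lt_floor_add_one _).le
  have hpiece : ∀ i ∈ Finset.range N,
      volume {x | x ∈ Icc ((i : ℝ) / N) ((i + 1 : ℝ) / N) ∧ f x ∈ E ∧ κ ≤ |f'' x|} ≤
        ENNReal.ofReal (4 * √(2 * δ / κ)) := by
    intro i hi
    have hi' : (i : ℝ) + 1 ≤ N := by exact_mod_cast (Finset.mem_range.1 hi)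
    have hsub : Icc ((i : ℝ) / N) ((i + 1 : ℝ) / N) ⊆ Icc 0 1 := by
      apply Icc_subset_Icc (by positivity)
      rw [div_le_one hN0]
      exact hi'
    rcases eq_empty_or_nonempty {x | x ∈ Icc ((i : ℝ) / N) ((i + 1 : ℝ) / N) ∧ f x ∈ E ∧ κ ≤ |f'' x|} with h | h
    · rw [h]; simp
    obtain ⟨x0, hx0, -, hx0k⟩ := h
    have hvar : ∀ x ∈ Icc ((i : ℝ) / N) ((i + 1 : ℝ) / N), |f'' x - f'' x0| ≤ κ / 2 := by
      intro x hx
      have h5 : ‖f'' x - f'' x0‖ ≤ D * ‖x - x0‖ :=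
        (convex_Icc _ _).norm_image_sub_le_of_norm_hasDerivWithin_le
          (f' := f3) (fun y hy => (hf'' y (hsub hy)).hasDerivWithinAt)
          (fun y hy => h3 y (hsub hy)) hx0 hx
      rw [Real.norm_eq_abs, Real.norm_eq_abs] at h5
      have h6 : |x - x0| ≤ 1 / N := by
        rw [abs_le]
        have e : (i + 1 : ℝ) / N = i / N + 1 / N := add_div _ _ _
        rw [e] at hx hx0
        constructor <;> linarith [hx.1, hx.2, hx0.1, hx0.2]
      have h7 : D * |x - x0| ≤ D * (1 / N) := mul_le_mul_of_nonneg_left h6 hD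
      have h8 : D * (1 / N) = D / N := by ring
      linarith
    have h2δ : δ / (κ / 2) = 2 * δ / κ := by field_simp
    have hmono : {x | x ∈ Icc ((i : ℝ) / N) ((i + 1 : ℝ) / N) ∧ f x ∈ E ∧ κ ≤ |f'' x|} ⊆
        {x | x ∈ Icc ((i : ℝ) / N) ((i + 1 : ℝ) / N) ∧ f x ∈ E} := fun x hx => ⟨hx.1, hx.2.1⟩
    refine (measure_mono hmono).trans ?_
    rw [← h2δ]
    rcases le_total 0 (f'' x0) with h | h
    · rw [abs_of_nonneg h] at hx0k
      refine time_convex (by positivity) hδ0 (fun x hx => hf x (hsub hx)) (fun x hx => hf' x (hsub hx)) ?_ hE hδ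
      intro x hx
      have := (abs_le.1 (hvar x hx)).1
      linarith
    · rw [abs_of_nonpos h] at hx0k
      refine time_concave (by positivity) hδ0 (fun x hx => hf x (hsub hx)) (fun x hx => hf' x (hsub hx)) ?_ hE hδ
      intro x hx
      have := (abs_le.1 (hvar x hx)).2
      linarith
  calc volume {x | x ∈ Icc (0 : ℝ) 1 ∧ f x ∈ E ∧ κ ≤ |f'' x|}
      ≤ volume (⋃ i ∈ Finset.range N, {x | x ∈ Icc ((i : ℝ) / N) ((i + 1 : ℝ) / N) ∧ f x ∈ E ∧ κ ≤ |f'' x|}) :=
        measure_mono hcover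
    _ ≤ ∑ i ∈ Finset.range N, volume {x | x ∈ Icc ((i : ℝ) / N) ((i + 1 : ℝ) / N) ∧ f x ∈ E ∧ κ ≤ |f'' x|} :=
        measure_biUnion_finset_le _ _
    _ ≤ ∑ i ∈ Finset.range N, ENNReal.ofReal (4 * √(2 * δ / κ)) := Finset.sum_le_sum hpiece
    _ = ENNReal.ofReal (N * (4 * √(2 * δ / κ))) := by
        rw [Finset.sum_const, Finset.card_range, nsmul_eq_mul, ENNReal.ofReal_mul hN0.le, ENNReal.ofReal_natCast]
    _ ≤ _ := by
        apply ENNReal.ofReal_le_ofReal
        gcongr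

end Pool.Agent.Q80.LW
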