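import Pool.Agent.Q80.LW.A
import Pool.Agent.TH421.AC.Main

set_option autoImplicit false

/-!
# Averaging over short segments
-/

namespace Pool.Agent.Q80.LW

open MeasureTheory Set Filter Topology
open scoped ENNReal ContDiff

theorem sup_bound {g g' : ℝ → ℝ} (hg : ∀ x ∈ Icc (0 : ℝ) 1, HasDerivAt g (g' x) x)
    (hc : ContinuousOn g' (Icc 0 1)) : ∀ x ∈ Icc (0 : ℝ) 1,
    |g x| ≤ ∫ s in Icc (0 : ℝ) 1, (|g s| + |g' s|) := by
  intro x hx
  have hcg : ContinuousOn g (Icc 0 1) := fun y hy => (hg y hy).continuousAt.continuousWithinAt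
  have i1 : IntegrableOn (fun s => |g s|) (Icc 0 1) := hcg.abs.integrableOn_Icc
  have i2 : IntegrableOn (fun s => |g' s|) (Icc 0 1) := hc.abs.integrableOn_Icc
  have key : ∀ s ∈ Icc (0 : ℝ) 1, |g x| ≤ |g s| + ∫ y in Icc (0 : ℝ) 1, |g' y| := by
    intro s hs
    have hsub : uIcc s x ⊆ Icc 0 1 := by
      intro y hy
      rw [mem_uIcc] at hy
      rcases hy with hy | hy
      · exact ⟨hs.1.trans hy.1, hy.2.trans hx.2⟩
      · exact ⟨hx.1.trans hy.1, hy.2.trans hs.2⟩
    have h1 : ∫ y in s..x, g' y = g x - g s :=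
      intervalIntegral.integral_eq_sub_of_hasDerivAt (fun y hy => hg y (hsub hy))
        ((hc.mono hsub).intervalIntegrable)
    have h2 : |g x - g s| ≤ ∫ y in Icc (0 : ℝ) 1, |g' y| := by
      rw [← h1]
      have h3 := intervalIntegral.norm_integral_le_integral_norm_uIoc (f := g') (a := s) (b := x) (μ := volume)
      rw [Real.norm_eq_abs] at h3
      refine h3.trans ?_
      simp only [Real.norm_eq_abs]
      exact setIntegral_mono_set i2 (ae_of_all _ fun _ => abs_nonneg _)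
        (LE.le.eventuallyLE (uIoc_subset_uIcc.trans hsub))
    have h4 : |g x| ≤ |g s| + |g x - g s| := by
      have := abs_add_le (g s) (g x - g s)
      rwa [add_sub_cancel] at this
    linarith
  have hv : (volume (Icc (0 : ℝ) 1)).toReal = 1 := by simp
  have h5 : |g x| = ∫ s in Icc (0 : ℝ) 1, |g x| := by
    rw [setIntegral_const, Measure.real, hv, one_smul]
  rw [h5, integral_add i1 i2]
  have h6 : ∫ y in Icc (0 : ℝ) 1, |g' y| = ∫ s in Icc (0 : ℝ) 1, (∫ y in Icc (0 : ℝ) 1, |g' y|) := by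
    rw [setIntegral_const, Measure.real, hv, one_smul]
  rw [h6, ← integral_add i1 (integrableOn_const (by simp))]
  exact setIntegral_mono_on (integrableOn_const (by simp)) (i1.add (integrableOn_const (by simp)))
    measurableSet_Icc key

/-- the one-dimensional estimate -/
theorem time_seg {f f1 f2 f3 f4 : ℝ → ℝ} {κ δ : ℝ} (hκ : 0 < κ) (hδ0 : 0 < δ)
    (h0 : ∀ x ∈ Icc (0 : ℝ) 1, HasDerivAt f (f1 x) x) (h1 : ∀ x ∈ Icc (0 : ℝ) 1, HasDerivAt f1 (f2 x) x)
    (h2 : ∀ x ∈ Icc (0 : ℝ) 1, HasDerivAt f2 (f3 x) x) (h3 : ∀ x ∈ Icc (0 : ℝ) 1, HasDerivAt f3 (f4 x) x)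
    (h4 : ContinuousOn f4 (Icc 0 1)) {E : Set ℝ} (hE : MeasurableSet E) (hδ : volume E ≤ ENNReal.ofReal δ) :
    volume {x | x ∈ Icc (0 : ℝ) 1 ∧ f x ∈ E ∧ κ ≤ |f2 x|} ≤
      ENNReal.ofReal (4 * √(2 * δ / κ)) + ENNReal.ofReal (2 / κ * (4 * √(2 * δ / κ))) *
        ∫⁻ x in Icc (0 : ℝ) 1, ENNReal.ofReal (|f3 x| + |f4 x|) := by
  have hsup := sup_bound h3 h4
  set D := ∫ s in Icc (0 : ℝ) 1, (|f3 s| + |f4 s|) with hD
  have hD0 : 0 ≤ D := integral_nonneg fun s => by positivity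
  have hc3 : ContinuousOn f3 (Icc 0 1) := fun y hy => (h3 y hy).continuousAt.continuousWithinAt
  have hi : IntegrableOn (fun s => |f3 s| + |f4 s|) (Icc 0 1) :=
    hc3.abs.integrableOn_Icc.add h4.abs.integrableOn_Icc
  have h5 : ENNReal.ofReal D = ∫⁻ x in Icc (0 : ℝ) 1, ENNReal.ofReal (|f3 x| + |f4 x|) :=
    ofReal_integral_eq_lintegral_ofReal hi (ae_of_all _ fun s => by positivity)
  have h6 := time_third hκ hδ0 hD0 h0 h1 h2 hsup hE hδ
  refine h6.trans (le_of_eq ?_)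
  rw [← h5, ← ENNReal.ofReal_mul (by positivity), ← ENNReal.ofReal_add (by positivity) (by positivity)]
  congr 1
  ring

/-- averaging over translates -/
theorem average {A K1 : Set ℂ} (hA : MeasurableSet A) (hK1 : MeasurableSet K1) (w : ℂ) {G : ℂ → ℝ≥0∞}
    (hG : Measurable G) (a b : ℝ≥0∞)
    (hsub : ∀ (z : ℂ), ∀ t ∈ Icc (0 : ℝ) 1, z + t • w ∈ A → z ∈ K1)
    (hest : ∀ z ∈ K1, volume {t : ℝ | t ∈ Icc (0 : ℝ) 1 ∧ z + t • w ∈ A} ≤
      a + b * ∫⁻ t in Icc (0 : ℝ) 1, G (z + t • w)) :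
    volume A ≤ a * volume K1 + b * ∫⁻ z, G z := by
  have hv : volume (Icc (0 : ℝ) 1) = 1 := by simp
  have mg : Measurable (fun p : ℂ × ℝ => p.1 + p.2 • w) := by fun_prop
  have mg' : Measurable (fun p : ℝ × ℂ => p.2 + p.1 • w) := by fun_prop
  have mA : Measurable (A.indicator (fun _ => (1 : ℝ≥0∞))) := measurable_const.indicator hA
  -- volume of A
  have e1 : volume A = ∫⁻ t in Icc (0 : ℝ) 1, ∫⁻ z, A.indicator (fun _ => (1 : ℝ≥0∞)) (z + t • w) := by
    have : ∀ t : ℝ, ∫⁻ z, A.indicator (fun _ => (1 : ℝ≥0∞)) (z + t • w) = volume A := by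
      intro t
      rw [lintegral_add_right_eq_self (fun z => A.indicator (fun _ => (1 : ℝ≥0∞)) z) (t • w),
        lintegral_indicator hA, lintegral_const, one_mul, Measure.restrict_apply MeasurableSet.univ, univ_inter]
    simp only [this]
    rw [lintegral_const, Measure.restrict_apply MeasurableSet.univ, univ_inter, hv, mul_one]
  have e2 : ∫⁻ t in Icc (0 : ℝ) 1, ∫⁻ z, A.indicator (fun _ => (1 : ℝ≥0∞)) (z + t • w) =
      ∫⁻ z, ∫⁻ t in Icc (0 : ℝ) 1, A.indicator (fun _ => (1 : ℝ≥0∞)) (z + t • w) :=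
    lintegral_lintegral_swap ((mA.comp mg').aemeasurable)
  have e3 : ∀ z, ∫⁻ t in Icc (0 : ℝ) 1, A.indicator (fun _ => (1 : ℝ≥0∞)) (z + t • w) =
      volume {t : ℝ | t ∈ Icc (0 : ℝ) 1 ∧ z + t • w ∈ A} := by
    intro z
    have hm : MeasurableSet {t : ℝ | z + t • w ∈ A} := by
      have : Measurable (fun t : ℝ => z + t • w) := by fun_prop
      exact this hA
    have e4 : (fun t : ℝ => A.indicator (fun _ => (1 : ℝ≥0∞)) (z + t • w)) =
        {t : ℝ | z + t • w ∈ A}.indicator (fun _ => 1) := by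
      funext t
      by_cases ht : z + t • w ∈ A
      · rw [indicator_of_mem ht, indicator_of_mem (show t ∈ {t : ℝ | z + t • w ∈ A} from ht)]
      · rw [indicator_of_notMem ht, indicator_of_notMem (show t ∉ {t : ℝ | z + t • w ∈ A} from ht)]
    rw [e4, lintegral_indicator hm, lintegral_const, one_mul, Measure.restrict_apply MeasurableSet.univ,
      univ_inter, Measure.restrict_apply hm]
    congr 1
    ext t
    exact and_comm
  have e5 : ∫⁻ z, ∫⁻ t in Icc (0 : ℝ) 1, A.indicator (fun _ => (1 : ℝ≥0∞)) (z + t • w) ≤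
      ∫⁻ z, (K1.indicator (fun _ => a) z + b * ∫⁻ t in Icc (0 : ℝ) 1, G (z + t • w)) := by
    refine lintegral_mono fun z => ?_
    show ∫⁻ t in Icc (0 : ℝ) 1, A.indicator (fun _ => (1 : ℝ≥0∞)) (z + t • w) ≤ _
    rw [e3 z]
    by_cases hz : z ∈ K1
    · rw [indicator_of_mem hz]
      exact hest z hz
    · have : {t : ℝ | t ∈ Icc (0 : ℝ) 1 ∧ z + t • w ∈ A} = ∅ := by
        ext t
        constructor
        · rintro ⟨h1, h2⟩
          exact absurd (hsub z t h1 h2) hz
        · intro h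
          exact h.elim
      rw [this]
      simp
  have mG : Measurable (fun z => ∫⁻ t in Icc (0 : ℝ) 1, G (z + t • w)) :=
    (hG.comp mg).lintegral_prod_right'
  have e6 : ∫⁻ z, (K1.indicator (fun _ => a) z + b * ∫⁻ t in Icc (0 : ℝ) 1, G (z + t • w)) =
      a * volume K1 + b * ∫⁻ z, G z := by
    rw [lintegral_add_left (measurable_const.indicator hK1), lintegral_indicator hK1, lintegral_const,
      Measure.restrict_apply MeasurableSet.univ, univ_inter, lintegral_const_mul b mG]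
    congr 2
    rw [lintegral_lintegral_swap (f := fun (z : ℂ) (t : ℝ) => G (z + t • w)) ((hG.comp mg).aemeasurable)]
    have : ∀ t : ℝ, ∫⁻ z, G (z + t • w) = ∫⁻ z, G z := fun t =>
      lintegral_add_right_eq_self (fun z => G z) (t • w)
    simp only [this]
    rw [lintegral_const, Measure.restrict_apply MeasurableSet.univ, univ_inter, hv, mul_one]
  rw [e1, e2]
  exact e5.trans (le_of_eq e6)

end Pool.Agent.Q80.LW
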