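import Pool.Agent.Q80.LW.B

set_option autoImplicit false

/-!
# The measure of the set where `u` takes its values in a small set and a second derivative is large
-/

namespace Pool.Agent.Q80.LW

open MeasureTheory Set Filter Topology
open scoped ENNReal ContDiff
open Pool.Agent.W745.RW Pool.Agent.TH294.RS Pool.Agent.TH294.RG Pool.Agent.TH421.DF Pool.Agent.TH421.AC

variable {B : Set ℂ} {h : ℕ → ℝ}

theorem seg_deriv (hB : IsOpen B) {H : ℕ → ℂ → ℝ} (hH : ∀ n, ContDiffOn ℝ ∞ (H n) B) (v : ℂ) (n : ℕ)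
    {z : ℂ} {t : ℝ} (hz : z + t • (h n • v) ∈ B) :
    HasDerivAt (fun s : ℝ => H n (z + s • (h n • v))) (rd h v H n (z + t • (h n • v))) t := by
  have h1 : HasFDerivAt (H n) (fderiv ℝ (H n) (z + t • (h n • v))) (z + t • (h n • v)) :=
    (rdA hB (hH n) hz).hasFDerivAt
  have h2 : HasDerivAt (fun s : ℝ => z + s • (h n • v)) (h n • v) t := by
    have := ((hasDerivAt_id t).smul_const (h n • v)).const_add z
    rw [one_smul] at this
    exact this
  have h3 := h1.comp_hasDerivAt t h2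
  have e : fderiv ℝ (H n) (z + t • (h n • v)) (h n • v) = rd h v H n (z + t • (h n • v)) := by
    rw [map_smul]
    rfl
  rw [e] at h3
  exact h3

theorem mk_one {u : ℕ → ℂ → ℝ} (hB : IsOpen B) (hu : ∀ n, ContDiffOn ℝ ∞ (u n) B) {k : ℕ}
    (hM : MK2 B h (k + 1) (cx u)) {v : ℂ} (hv : v = 1 ∨ v = Complex.I) : MK2 B h k (cx (rd h v u)) := by
  rcases hv with rfl | rfl
  · exact (mk_rd hB hu hM).1
  · exact (mk_rd hB hu hM).2

theorem abs_le_sq (x : ℝ) : |x| ≤ 1 + x ^ 2 := by
  rw [← sq_abs]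
  nlinarith [sq_nonneg (|x| - 1)]

theorem one_dir' (hB : IsOpen B) (hp : ∀ n, 0 < h n) (hh : Tendsto h atTop (𝓝 0))
    {u : ℕ → ℂ → ℝ} (hu : ∀ n, ContDiffOn ℝ ∞ (u n) B) (hM : MK2 B h 4 (cx u))
    {K0 : Set ℂ} (hK0 : IsCompact K0) (hKB : K0 ⊆ B) {v : ℂ} (hv : v = 1 ∨ v = Complex.I) :
    ∃ C : ℝ, 0 ≤ C ∧ ∀ᶠ n in atTop, ∀ (E : Set ℝ) (δ κ : ℝ), MeasurableSet E → 0 < δ → 0 < κ →
      volume E ≤ ENNReal.ofReal δ →
      volume {z | z ∈ K0 ∧ u n z ∈ E ∧ κ ≤ |rd h v (rd h v u) n z|} ≤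
        ENNReal.ofReal (C * (1 + 1 / κ) * √(δ / κ)) := by
  classical
  obtain ⟨r2, hr2, hr2B⟩ := hK0.exists_cthickening_subset_open hB hKB
  set r := r2 / 2 with hr
  have hr0 : 0 < r := by positivity
  set K1 := Metric.cthickening r K0 with hK1
  set K2 := Metric.cthickening r2 K0 with hK2
  have cK1 : IsCompact K1 := hK0.cthickening
  have cK2 : IsCompact K2 := hK0.cthickening
  have s1 := rd_sm (h := h) hB hu v
  have s2 := rd_sm (h := h) hB s1 v
  have s3 := rd_sm (h := h) hB s2 v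
  have s4 := rd_sm (h := h) hB s3 v
  have m1 := mk_one hB hu hM hv
  have m2 := mk_one hB s1 m1 hv
  have m3 := mk_one hB s2 m2 hv
  have m4 := mk_one hB s3 m3 hv
  obtain ⟨C3, C30, E3⟩ := lb_re m3.lb cK2 hr2B
  obtain ⟨C4, C40, E4⟩ := lb_re m4.lb cK2 hr2B
  set V1 : ℝ := (volume K1).toReal with hV1
  set V2 : ℝ := (volume K2).toReal with hV2
  have hV1f : volume K1 = ENNReal.ofReal V1 := (ENNReal.ofReal_toReal cK1.measure_lt_top.ne).symm
  have hv1 : ‖v‖ = 1 := by rcases hv with rfl | rfl <;> simp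
  refine ⟨8 * (V1 + 2 * (2 * V2 + C3 + C4)), by positivity, ?_⟩
  have hsmall : ∀ᶠ n in atTop, h n ≤ r := (tendsto_order.1 hh).2 _ hr0 |>.mono fun _ h => h.le
  filter_upwards [E3, E4, hsmall] with n E3 E4 hn E δ κ hE hδ0 hκ hδ
  set w : ℂ := h n • v with hw
  have hwn : ‖w‖ ≤ r := by
    rw [hw, norm_smul, hv1, mul_one, Real.norm_of_nonneg (hp n).le]
    exact hn
  have htw : ∀ t ∈ Icc (0 : ℝ) 1, ‖t • w‖ ≤ r := by
    intro t ht
    rw [norm_smul, Real.norm_of_nonneg ht.1]
    calc t * ‖w‖ ≤ 1 * ‖w‖ := mul_le_mul_of_nonneg_right ht.2 (norm_nonneg _)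
      _ ≤ r := by rw [one_mul]; exact hwn
  have hin : ∀ z ∈ K1, ∀ t ∈ Icc (0 : ℝ) 1, z + t • w ∈ K2 := by
    intro z hz t ht
    have h1 : z + t • w ∈ Metric.cthickening r K1 := by
      apply Metric.mem_cthickening_of_dist_le _ z _ _ hz
      rw [dist_eq_norm, add_sub_cancel_left]
      exact htw t ht
    have h2 := Metric.cthickening_cthickening_subset hr0.le hr0.le K0 h1
    rwa [hr, add_halves] at h2
  have hout : ∀ (z : ℂ), ∀ t ∈ Icc (0 : ℝ) 1, z + t • w ∈ K0 → z ∈ K1 := by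
    intro z t ht hz
    apply Metric.mem_cthickening_of_dist_le _ (z + t • w) _ _ hz
    rw [dist_eq_norm, sub_add_cancel_left, norm_neg]
    exact htw t ht
  set A : Set ℂ := {z | z ∈ K0 ∧ u n z ∈ E ∧ κ ≤ |rd h v (rd h v u) n z|} with hA
  -- measurability
  have cu : ContinuousOn (u n) K2 := (hu n).continuousOn.mono hr2B
  have c2 : ContinuousOn (rd h v (rd h v u) n) K2 := (s2 n).continuousOn.mono hr2B
  have c3 : ContinuousOn (rd h v (rd h v (rd h v u)) n) K2 := (s3 n).continuousOn.mono hr2B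
  have c4 : ContinuousOn (rd h v (rd h v (rd h v (rd h v u))) n) K2 := (s4 n).continuousOn.mono hr2B
  have hK02 : K0 ⊆ K2 := Metric.self_subset_cthickening _
  have mK2 : MeasurableSet K2 := cK2.isClosed.measurableSet
  have hAm : MeasurableSet A := by
    have p1 := cu.measurable_piecewise (g := fun _ => (0 : ℝ)) (continuousOn_const (s := K2ᶜ)) mK2
    have p2 := c2.measurable_piecewise (g := fun _ => (0 : ℝ)) (continuousOn_const (s := K2ᶜ)) mK2
    have q : MeasurableSet {x : ℝ | κ ≤ |x|} := measurableSet_le measurable_const measurable_id.abs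
    have e : A = K0 ∩ ((K2.piecewise (u n) fun _ => 0) ⁻¹' E ∩
        (K2.piecewise (rd h v (rd h v u) n) fun _ => 0) ⁻¹' {x : ℝ | κ ≤ |x|}) := by
      ext z
      have pz : z ∈ K0 → K2.piecewise (u n) (fun _ => 0) z = u n z := fun hz =>
        piecewise_eq_of_mem _ _ _ (hK02 hz)
      have pz2 : z ∈ K0 → K2.piecewise (rd h v (rd h v u) n) (fun _ => 0) z = rd h v (rd h v u) n z :=
        fun hz => piecewise_eq_of_mem _ _ _ (hK02 hz)
      constructor
      · rintro ⟨h1, h2, h3⟩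
        refine ⟨h1, ?_, ?_⟩
        · show K2.piecewise (u n) (fun _ => 0) z ∈ E
          rw [pz h1]; exact h2
        · show κ ≤ |K2.piecewise (rd h v (rd h v u) n) (fun _ => 0) z|
          rw [pz2 h1]; exact h3
      · rintro ⟨h1, h2, h3⟩
        have h2' : K2.piecewise (u n) (fun _ => 0) z ∈ E := h2
        have h3' : κ ≤ |K2.piecewise (rd h v (rd h v u) n) (fun _ => 0) z| := h3
        rw [pz h1] at h2'
        rw [pz2 h1] at h3'
        exact ⟨h1, h2', h3'⟩
    rw [e]
    exact hK0.isClosed.measurableSet.inter ((p1 hE).inter (p2 q))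
  -- the function G
  set G0 : ℂ → ℝ := K2.piecewise (fun z => |rd h v (rd h v (rd h v u)) n z| +
    |rd h v (rd h v (rd h v (rd h v u))) n z|) (fun _ => 0) with hG0
  have mG0 : Measurable G0 := (c3.abs.add c4.abs).measurable_piecewise (continuousOn_const (s := K2ᶜ)) mK2
  have key := average hAm cK1.isClosed.measurableSet w (G := fun z => ENNReal.ofReal (G0 z))
    mG0.ennreal_ofReal (ENNReal.ofReal (4 * √(2 * δ / κ))) (ENNReal.ofReal (2 / κ * (4 * √(2 * δ / κ))))
    (fun z t ht hz => hout z t ht hz.1)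
    (by
      intro z hz
      have hB' : ∀ t ∈ Icc (0 : ℝ) 1, z + t • (h n • v) ∈ B := fun t ht => hr2B (hin z hz t ht)
      have q := time_seg (f := fun t => u n (z + t • w)) (f1 := fun t => rd h v u n (z + t • w))
        (f2 := fun t => rd h v (rd h v u) n (z + t • w))
        (f3 := fun t => rd h v (rd h v (rd h v u)) n (z + t • w))
        (f4 := fun t => rd h v (rd h v (rd h v (rd h v u))) n (z + t • w)) hκ hδ0
        (fun t ht => seg_deriv hB hu v n (hB' t ht)) (fun t ht => seg_deriv hB s1 v n (hB' t ht))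
        (fun t ht => seg_deriv hB s2 v n (hB' t ht)) (fun t ht => seg_deriv hB s3 v n (hB' t ht))
        (c4.comp (by fun_prop) (fun t ht => hin z hz t ht)) hE hδ
      have e1 : {t : ℝ | t ∈ Icc (0 : ℝ) 1 ∧ z + t • w ∈ A} ⊆
          {t : ℝ | t ∈ Icc (0 : ℝ) 1 ∧ u n (z + t • w) ∈ E ∧ κ ≤ |rd h v (rd h v u) n (z + t • w)|} :=
        fun t ht => ⟨ht.1, ht.2.2.1, ht.2.2.2⟩
      refine (measure_mono e1).trans (q.trans (le_of_eq ?_))
      congr 2
      refine setLIntegral_congr_fun measurableSet_Icc fun t ht => ?_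
      show ENNReal.ofReal _ = ENNReal.ofReal (G0 (z + t • w))
      rw [hG0, piecewise_eq_of_mem _ _ _ (hin z hz t ht)])
  -- the integral of G
  have iG : ∫⁻ z, ENNReal.ofReal (G0 z) ≤ ENNReal.ofReal (2 * V2 + C3 + C4) := by
    have e1 : (fun z => ENNReal.ofReal (G0 z)) = K2.indicator (fun z => ENNReal.ofReal
        (|rd h v (rd h v (rd h v u)) n z| + |rd h v (rd h v (rd h v (rd h v u))) n z|)) := by
      funext z
      by_cases hz : z ∈ K2
      · rw [indicator_of_mem hz, hG0, piecewise_eq_of_mem _ _ _ hz]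
      · rw [indicator_of_notMem hz, hG0, piecewise_eq_of_notMem _ _ _ hz, ENNReal.ofReal_zero]
    rw [e1, lintegral_indicator mK2]
    have i3 : IntegrableOn (fun z => |rd h v (rd h v (rd h v u)) n z| +
        |rd h v (rd h v (rd h v (rd h v u))) n z|) K2 := (c3.abs.add c4.abs).integrableOn_compact cK2
    rw [← ofReal_integral_eq_lintegral_ofReal i3 (ae_of_all _ fun z => by positivity)]
    apply ENNReal.ofReal_le_ofReal
    have j3 : IntegrableOn (fun z => rd h v (rd h v (rd h v u)) n z ^ 2) K2 :=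
      (c3.pow 2).integrableOn_compact cK2
    have j4 : IntegrableOn (fun z => rd h v (rd h v (rd h v (rd h v u))) n z ^ 2) K2 :=
      (c4.pow 2).integrableOn_compact cK2
    have j1 : IntegrableOn (fun _ : ℂ => (1 : ℝ)) K2 := integrableOn_const cK2.measure_lt_top.ne
    have step : ∫ z in K2, (|rd h v (rd h v (rd h v u)) n z| +
        |rd h v (rd h v (rd h v (rd h v u))) n z|) ≤
        ∫ z in K2, (((1 : ℝ) + 1) + (rd h v (rd h v (rd h v u)) n z ^ 2 +
          rd h v (rd h v (rd h v (rd h v u))) n z ^ 2)) := by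
      refine setIntegral_mono_on i3 ((j1.add j1).add (j3.add j4)) mK2 fun z _ => ?_
      have a1 := abs_le_sq (rd h v (rd h v (rd h v u)) n z)
      have a2 := abs_le_sq (rd h v (rd h v (rd h v (rd h v u))) n z)
      linarith
    refine step.trans ?_
    have e2 : ∫ z in K2, (1 : ℝ) = V2 := by
      rw [setIntegral_const, smul_eq_mul, mul_one]
      rfl
    have a := integral_add (j1.add j1) (j3.add j4)
    have b := integral_add j1 j1
    have c := integral_add j3 j4
    rw [e2] at b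
    have d := a.trans (congrArg₂ (· + ·) b c)
    refine (le_of_eq d).trans ?_
    linarith
  refine key.trans ?_
  rw [hV1f]
  calc ENNReal.ofReal (4 * √(2 * δ / κ)) * ENNReal.ofReal V1 +
      ENNReal.ofReal (2 / κ * (4 * √(2 * δ / κ))) * ∫⁻ z, ENNReal.ofReal (G0 z)
      ≤ ENNReal.ofReal (4 * √(2 * δ / κ)) * ENNReal.ofReal V1 +
        ENNReal.ofReal (2 / κ * (4 * √(2 * δ / κ))) * ENNReal.ofReal (2 * V2 + C3 + C4) := by gcongr
    _ = ENNReal.ofReal (4 * √(2 * δ / κ) * V1 + 2 / κ * (4 * √(2 * δ / κ)) * (2 * V2 + C3 + C4)) := by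
        rw [← ENNReal.ofReal_mul (by positivity), ← ENNReal.ofReal_mul (by positivity),
          ← ENNReal.ofReal_add (by positivity) (by positivity)]
    _ ≤ _ := by
        apply ENNReal.ofReal_le_ofReal
        have hsq : √(2 * δ / κ) ≤ 2 * √(δ / κ) := by
          have : 2 * δ / κ = 2 * (δ / κ) := by ring
          rw [this, Real.sqrt_mul (by norm_num)]
          have h2 : √2 ≤ 2 := by
            rw [Real.sqrt_le_left (by norm_num)]
            norm_num
          gcongr
        have hS : 0 ≤ √(δ / κ) := Real.sqrt_nonneg _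
        have hk : 0 < 1 / κ := by positivity
        set S := √(δ / κ)
        set W := 2 * V2 + C3 + C4 with hW
        have hW0 : 0 ≤ W := by positivity
        have hV10 : 0 ≤ V1 := ENNReal.toReal_nonneg
        have b1 : 4 * √(2 * δ / κ) * V1 ≤ 8 * S * V1 := by nlinarith
        have b2 : 2 / κ * (4 * √(2 * δ / κ)) * W ≤ 16 * (1 / κ) * S * W := by
          have : 2 / κ * (4 * √(2 * δ / κ)) * W = 8 * (1 / κ) * W * √(2 * δ / κ) := by ring
          rw [this]
          have h3 : 8 * (1 / κ) * W * √(2 * δ / κ) ≤ 8 * (1 / κ) * W * (2 * S) :=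
            mul_le_mul_of_nonneg_left hsq (by positivity)
          linarith
        have b3 : 8 * (V1 + 2 * W) * (1 + 1 / κ) * S = 8 * S * V1 + 16 * (1 / κ) * S * W +
            (16 * S * W + 8 * (1 / κ) * S * V1) := by ring
        rw [b3]
        have b4 : 0 ≤ 16 * S * W + 8 * (1 / κ) * S * V1 := by positivity
        linarith

end Pool.Agent.Q80.LW
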