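import Pool.Agent.Q80.LW.C
import Pool.Agent.Results.MP_a52643_an.AbsoluteContinuity

set_option autoImplicit false

/-!
# The laws of eigenfunctions: bound for the mass of the points where `u` is in a small set
-/

namespace Pool.Agent.Q80.LW

open MeasureTheory Set Filter Topology
open scoped ENNReal ContDiff
open Pool.Agent.W745.RW Pool.Agent.TH294.RS Pool.Agent.TH294.RG Pool.Agent.TH421.DF Pool.Agent.TH421.AC
open Pool.Agent.Results.MP_a52643_an.AbsoluteContinuity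

theorem mass_bound {Ω : Set ℂ} {ρ : ℂ → ℝ} {lam : ℕ → ℝ} {u : ℕ → ℂ → ℝ} (hΩ : IsOpen Ω)
    (hρ : ContDiffOn ℝ ∞ ρ Ω) (hρ0 : ∀ z ∈ Ω, 0 < ρ z) (hlam : Tendsto lam atTop atTop)
    (hu : ∀ n, ContDiffOn ℝ ∞ (u n) Ω) (he : ∀ n, ∀ z ∈ Ω, lapl (u n) z + lam n * (ρ z * u n z) = 0)
    (hL : LocL2 Ω u) {K0 : Set ℂ} (hK0 : IsCompact K0) (hKΩ : K0 ⊆ Ω) :
    ∃ C : ℝ, 0 ≤ C ∧ ∀ᶠ n in atTop, ∀ (A : Set ℝ) (δ c : ℝ), MeasurableSet A → 0 < δ → 0 < c →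
      (∀ x ∈ A, c ≤ |x|) → volume A ≤ ENNReal.ofReal δ →
      volume {z | z ∈ K0 ∧ u n z ∈ A} ≤ ENNReal.ofReal (C * (1 + 1 / c) * √(δ / c)) := by
  obtain ⟨N0, hN0⟩ := (eventually_atTop.1 (hlam.eventually_ge_atTop 1))
  obtain ⟨l, hl⟩ : ∃ l : ℕ → ℝ, ∀ n, l n = lam (n + N0) := ⟨_, fun _ => rfl⟩
  have l1 : ∀ n, 1 ≤ l n := fun n => by rw [hl]; exact hN0 _ (Nat.le_add_left _ _)
  have ll : Tendsto l atTop atTop :=
    (hlam.comp (tendsto_add_atTop_nat N0)).congr fun n => (hl n).symm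
  obtain ⟨h, hh⟩ : ∃ h : ℕ → ℝ, ∀ n, h n = (√(l n))⁻¹ := ⟨_, fun _ => rfl⟩
  have hp : ∀ n, 0 < h n := fun n => by
    rw [hh]; exact inv_pos.2 (Real.sqrt_pos.2 (lt_of_lt_of_le one_pos (l1 n)))
  have h0 : Tendsto h atTop (𝓝 0) :=
    (tendsto_inv_atTop_zero.comp (Real.tendsto_sqrt_atTop.comp ll)).congr fun n => (hh n).symm
  have h2 : ∀ n, h n ^ 2 * l n = 1 := fun n => by
    have p : 0 < l n := lt_of_lt_of_le one_pos (l1 n)
    rw [hh, inv_pow, Real.sq_sqrt p.le, inv_mul_cancel₀ p.ne']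
  obtain ⟨w, hw⟩ : ∃ w : ℕ → ℂ → ℝ, w = fun n => u (n + N0) := ⟨_, rfl⟩
  have sw : ∀ n, ContDiffOn ℝ ∞ (w n) Ω := fun n => by rw [hw]; exact hu _
  have ew : ∀ n, ∀ z ∈ Ω, h n ^ 2 * lapl (w n) z = -(ρ z * w n z) := by
    intro n z hz
    have e1 := he (n + N0) z hz
    rw [← hl] at e1
    have e2 : lapl (w n) z = - (l n * (ρ z * w n z)) := by
      rw [hw]; show lapl (u (n + N0)) z = - (l n * (ρ z * u (n + N0) z)); linarith
    rw [e2]
    have := h2 n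
    linear_combination (-(ρ z * w n z)) * this
  have lbw : LB Ω 2 (cx w) := by
    refine ⟨fun n => Complex.ofRealCLM.contDiff.comp_contDiffOn (sw n), fun K hK hKB => ?_⟩
    obtain ⟨C, hC⟩ := hL K hK hKB
    refine ⟨C, ?_⟩
    have h3 := (tendsto_add_atTop_nat N0).eventually hC
    refine h3.mono fun n hn => ?_
    simp only [cx, Complex.norm_real, Real.norm_eq_abs, sq_abs, hw]
    exact hn
  have MKw : MK2 Ω h 4 (cx w) := by
    refine mk_sol hΩ hp h0 lbw (ρ := fun z => (ρ z : ℂ))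
      (Complex.ofRealCLM.contDiff.comp_contDiffOn hρ) (c := fun _ => 1) (M := 1)
      (Eventually.of_forall fun n => by norm_num) ?_ 4
    intro n z hz
    have e1 : lap (cx w n) z = ((lapl (w n) z : ℝ) : ℂ) := lap_re hΩ (sw n) hz
    simp only [Pool.Agent.TH294.RS.hL]
    rw [e1]
    have e2 := ew n z hz
    have e3 : ((h n ^ 2 * lapl (w n) z : ℝ) : ℂ) = ((-(ρ z * w n z) : ℝ) : ℂ) := by rw [e2]
    push_cast at e3
    simp only [cx]
    push_cast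
    rw [e3]; ring
  obtain ⟨C1, C10, E1⟩ := one_dir' hΩ hp h0 sw MKw hK0 hKΩ (v := 1) (Or.inl rfl)
  obtain ⟨C2, C20, E2⟩ := one_dir' hΩ hp h0 sw MKw hK0 hKΩ (v := Complex.I) (Or.inr rfl)
  -- lower bound for ρ
  obtain ⟨r0, hr0, hr0K⟩ : ∃ r0 : ℝ, 0 < r0 ∧ ∀ z ∈ K0, r0 ≤ ρ z := by
    rcases K0.eq_empty_or_nonempty with h | h
    · exact ⟨1, one_pos, by rw [h]; simp⟩
    · obtain ⟨z0, hz0, hmin⟩ := hK0.exists_isMinOn h (hρ.continuousOn.mono hKΩ)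
      exact ⟨ρ z0, hρ0 z0 (hKΩ hz0), fun z hz => hmin hz⟩
  set q := 2 / r0 with hq
  have hq0 : 0 < q := by positivity
  refine ⟨(C1 + C2) * ((1 + q) * √q), by positivity, ?_⟩
  rw [← Filter.map_add_atTop_eq_nat N0, eventually_map]
  filter_upwards [E1, E2] with n E1 E2 A δ c hA hδ0 hc hAc hδ
  have hκ : 0 < r0 * c / 2 := by positivity
  have F1 := E1 A δ (r0 * c / 2) hA hδ0 hκ hδ
  have F2 := E2 A δ (r0 * c / 2) hA hδ0 hκ hδ
  have hun : u (n + N0) = w n := by rw [hw]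
  rw [hun]
  have hcov : {z | z ∈ K0 ∧ w n z ∈ A} ⊆
      {z | z ∈ K0 ∧ w n z ∈ A ∧ r0 * c / 2 ≤ |rd h 1 (rd h 1 w) n z|} ∪
      {z | z ∈ K0 ∧ w n z ∈ A ∧ r0 * c / 2 ≤ |rd h Complex.I (rd h Complex.I w) n z|} := by
    rintro z ⟨hz, hzA⟩
    have e1 : rd h 1 (rd h 1 w) n z + rd h Complex.I (rd h Complex.I w) n z = -(ρ z * w n z) := by
      rw [rdd hΩ sw 1 n (hKΩ hz), rdd hΩ sw Complex.I n (hKΩ hz), ← mul_add]
      exact ew n z (hKΩ hz)
    have e2 : r0 * c ≤ |rd h 1 (rd h 1 w) n z| + |rd h Complex.I (rd h Complex.I w) n z| := by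
      have e3 : r0 * c ≤ |-(ρ z * w n z)| := by
        rw [abs_neg, abs_mul, abs_of_pos (hρ0 z (hKΩ hz))]
        exact mul_le_mul (hr0K z hz) (hAc _ hzA) hc.le (hρ0 z (hKΩ hz)).le
      rw [← e1] at e3
      exact e3.trans (abs_add_le _ _)
    by_cases h1 : r0 * c / 2 ≤ |rd h 1 (rd h 1 w) n z|
    · exact Or.inl ⟨hz, hzA, h1⟩
    · refine Or.inr ⟨hz, hzA, ?_⟩
      push Not at h1
      linarith
  calc volume {z | z ∈ K0 ∧ w n z ∈ A} ≤ _ := measure_mono hcov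
    _ ≤ volume {z | z ∈ K0 ∧ w n z ∈ A ∧ r0 * c / 2 ≤ |rd h 1 (rd h 1 w) n z|} +
      volume {z | z ∈ K0 ∧ w n z ∈ A ∧ r0 * c / 2 ≤ |rd h Complex.I (rd h Complex.I w) n z|} :=
        measure_union_le _ _
    _ ≤ ENNReal.ofReal (C1 * (1 + 1 / (r0 * c / 2)) * √(δ / (r0 * c / 2))) +
      ENNReal.ofReal (C2 * (1 + 1 / (r0 * c / 2)) * √(δ / (r0 * c / 2))) := add_le_add F1 F2
    _ = ENNReal.ofReal ((C1 + C2) * (1 + 1 / (r0 * c / 2)) * √(δ / (r0 * c / 2))) := by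
        rw [← ENNReal.ofReal_add (by positivity) (by positivity)]
        congr 1
        ring
    _ ≤ _ := by
        apply ENNReal.ofReal_le_ofReal
        have e1 : δ / (r0 * c / 2) = q * (δ / c) := by rw [hq]; field_simp
        have e2 : 1 / (r0 * c / 2) = q * (1 / c) := by rw [hq]; field_simp
        rw [e1, e2, Real.sqrt_mul hq0.le]
        have e3 : 1 + q * (1 / c) ≤ (1 + q) * (1 + 1 / c) := by
          have : 0 < 1 / c := by positivity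
          nlinarith
        have e4 : 0 ≤ √q * √(δ / c) := by positivity
        calc (C1 + C2) * (1 + q * (1 / c)) * (√q * √(δ / c)) ≤
            (C1 + C2) * ((1 + q) * (1 + 1 / c)) * (√q * √(δ / c)) := by gcongr
          _ = _ := by ring

end Pool.Agent.Q80.LW
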